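import Mathlib

set_option autoImplicit false

/-!
# Distances to subspaces of `ℓ²` which are related by injections of the index sets
-/

open scoped InnerProductSpace ENNReal

noncomputable section

namespace Pool.Agent.W5h92.CR

/-- `ℓ²` of a set -/
abbrev L2 (α : Type*) := lp (fun _ : α => ℂ) 2

variable {α β : Type*}

open Classical in
/-- the basis vectors -/
def sd (a : α) : L2 α := lp.single 2 a (1 : ℂ)

theorem sd_self (a : α) : (sd a : L2 α) a = 1 := by
  classical
  unfold sd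
  exact lp.single_apply_self 2 a 1

theorem sd_ne (a b : α) (h : b ≠ a) : (sd a : L2 α) b = 0 := by
  classical
  unfold sd
  exact lp.single_apply_ne 2 a 1 h

theorem inner_sd_left (a : α) (f : L2 α) : ⟪sd a, f⟫_ℂ = f a := by
  classical
  unfold sd
  rw [lp.inner_single_left]
  simp

theorem inner_sd_right (a : α) (f : L2 α) : ⟪f, sd a⟫_ℂ = (starRingEnd ℂ) (f a) := by
  rw [← inner_conj_symm, inner_sd_left]

theorem memlp_iff (f : α → ℂ) : Memℓp f 2 ↔ Summable fun x => ‖f x‖ ^ 2 := by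
  rw [memℓp_gen_iff (by norm_num)]
  simp only [ENNReal.toReal_ofNat, Real.rpow_ofNat]

theorem norm_sq (f : L2 α) : ‖f‖ ^ 2 = ∑' x, ‖f x‖ ^ 2 := by
  have h := lp.norm_rpow_eq_tsum (p := 2) (by norm_num) f
  simp only [ENNReal.toReal_ofNat, Real.rpow_ofNat] at h
  exact h

theorem summ (f : L2 α) : Summable fun x => ‖f x‖ ^ 2 := (memlp_iff _).1 f.2

/-- pull back along an injective map -/
def pull (e : α → β) (he : Function.Injective e) (y : L2 β) : L2 α :=
  ⟨fun a => y (e a), (memlp_iff _).2 ((summ y).comp_injective he)⟩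

theorem pull_apply (e : α → β) (he : Function.Injective e) (y : L2 β) (a : α) :
    pull e he y a = y (e a) := rfl

open Classical in
/-- extension by zero along an injective map -/
def push (e : α → β) (he : Function.Injective e) (u : L2 α) : L2 β :=
  ⟨Function.extend e u 0, (memlp_iff _).2 (by
    rw [← he.summable_iff]
    · refine (summ u).congr fun a => ?_
      rw [Function.comp_apply, he.extend_apply]
    · intro b hb
      rw [Function.extend_apply' _ _ _ (by simpa using hb)]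
      simp)⟩

theorem push_apply (e : α → β) (he : Function.Injective e) (u : L2 α) (a : α) :
    push e he u (e a) = u a := he.extend_apply _ _ _

theorem push_apply' (e : α → β) (he : Function.Injective e) (u : L2 α) (b : β)
    (hb : b ∉ Set.range e) : push e he u b = 0 :=
  Function.extend_apply' _ _ _ (by simpa using hb)

theorem norm_push (e : α → β) (he : Function.Injective e) (u : L2 α) : ‖push e he u‖ = ‖u‖ := by
  have h : ‖push e he u‖ ^ 2 = ‖u‖ ^ 2 := by
    rw [norm_sq, norm_sq]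
    have h1 := he.tsum_eq (f := fun b => ‖push e he u b‖ ^ 2) (by
      intro b hb
      by_contra hcon
      apply hb
      simp only
      rw [push_apply' e he u b hcon]
      simp)
    rw [← h1]
    exact tsum_congr fun a => by rw [push_apply]
  exact (sq_eq_sq₀ (norm_nonneg _) (norm_nonneg _)).1 h

theorem inner_push (e : α → β) (he : Function.Injective e) (u : L2 α) (y : L2 β) :
    ⟪push e he u, y⟫_ℂ = ⟪u, pull e he y⟫_ℂ := by
  rw [lp.inner_eq_tsum, lp.inner_eq_tsum]
  have h1 := he.tsum_eq (f := fun b => ⟪push e he u b, y b⟫_ℂ) (by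
    intro b hb
    by_contra hcon
    apply hb
    simp only
    rw [push_apply' e he u b hcon]
    simp)
  rw [← h1]
  exact tsum_congr fun a => by rw [push_apply, pull_apply]

/-- a vector orthogonal to `K` bounds the distance to `K` from below -/
theorem dist_bound (K : Set (L2 β)) (h0 : (0 : L2 β) ∈ K) (d w : L2 β)
    (hw : ∀ x ∈ K, ⟪w, x⟫_ℂ = 0) : ‖⟪d, w⟫_ℂ‖ ≤ Metric.infDist d K * ‖w‖ := by
  rcases eq_or_lt_of_le (norm_nonneg w) with h | h
  · have : w = 0 := norm_eq_zero.1 h.symm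
    simp [this]
  · rw [← div_le_iff₀ h]
    rw [Metric.le_infDist ⟨0, h0⟩]
    intro x hx
    rw [div_le_iff₀ h, dist_eq_norm]
    have h1 : ⟪d, w⟫_ℂ = ⟪d - x, w⟫_ℂ := by
      rw [inner_sub_left]
      have : ⟪x, w⟫_ℂ = 0 := by
        rw [← inner_conj_symm, hw x hx]
        simp
      rw [this, sub_zero]
    rw [h1]
    exact norm_inner_le_norm _ _

/-- the part of a basis vector orthogonal to a closed subspace -/
theorem exists_perp (K : Submodule ℂ (L2 α)) (hK : IsClosed (K : Set (L2 α))) (a : α) :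
    ∃ u : L2 α, (∀ x ∈ K, ⟪u, x⟫_ℂ = 0) ∧ ‖u‖ ^ 2 = Metric.infDist (sd a) (K : Set (L2 α)) ^ 2 ∧
      u a = ((Metric.infDist (sd a) (K : Set (L2 α)) ^ 2 : ℝ) : ℂ) := by
  have : CompleteSpace K := hK.completeSpace_coe
  have h1 : Metric.infDist (sd a) (K : Set (L2 α)) = ‖sd a - K.starProjection (sd a)‖ := by
    rw [Submodule.starProjection_minimal, Metric.infDist_eq_iInf]
    simp only [dist_eq_norm]
    rfl
  refine ⟨sd a - K.starProjection (sd a), ?_, ?_, ?_⟩
  · intro x hx
    have h2 := Submodule.sub_starProjection_mem_orthogonal (K := K) (sd a)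
    rw [← inner_conj_symm, (Submodule.mem_orthogonal _ _).1 h2 x hx]
    simp
  · rw [h1]
  · rw [h1]
    set u := sd a - K.starProjection (sd a) with hu
    have h2 : ⟪u, K.starProjection (sd a)⟫_ℂ = 0 := by
      have h3 := Submodule.sub_starProjection_mem_orthogonal (K := K) (sd a)
      rw [← inner_conj_symm, (Submodule.mem_orthogonal _ _).1 h3 _
        (Submodule.starProjection_apply_mem _ _)]
      simp
    have h3 : ⟪u, sd a⟫_ℂ = ((‖u‖ ^ 2 : ℝ) : ℂ) := by
      have h4 : sd a = u + K.starProjection (sd a) := by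
        rw [hu]
        abel
      conv_lhs => rw [h4]
      rw [inner_add_right, h2, add_zero, inner_self_eq_norm_sq_to_K]
      push_cast
      rfl
    rw [inner_sd_right] at h3
    have h4 := congrArg (starRingEnd ℂ) h3
    rw [Complex.conj_conj, Complex.conj_ofReal] at h4
    exact h4

theorem sum_apply {σ : Type*} (S : Finset σ) (f : σ → L2 β) (b : β) :
    (∑ s ∈ S, f s : L2 β) b = ∑ s ∈ S, f s b := by
  induction S using Finset.cons_induction with
  | empty => simp
  | cons a S ha ih =>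
    rw [Finset.sum_cons, Finset.sum_cons, ← ih]
    rfl

/-- vectors with at most `N` of them different from zero at each point, one point excepted -/
theorem norm_sum_sq_le {σ : Type*} [Fintype σ] (f : σ → L2 β) (b0 : β) (N : ℕ)
    (hN : ∀ b, b ≠ b0 → {s | f s b ≠ 0}.ncard ≤ N) :
    ‖∑ s, f s‖ ^ 2 ≤ ‖∑ s, f s b0‖ ^ 2 + N * (∑ s, (‖f s‖ ^ 2 - ‖f s b0‖ ^ 2)) := by
  classical
  have h1 : ‖∑ s, f s‖ ^ 2
      = ‖∑ s, f s b0‖ ^ 2 + ∑' b, if b = b0 then 0 else ‖∑ s, f s b‖ ^ 2 := by
    rw [norm_sq, (summ _).tsum_eq_add_tsum_ite b0]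
    simp only [sum_apply]
  have h2 : ∀ s, ‖f s‖ ^ 2 - ‖f s b0‖ ^ 2 = ∑' b, if b = b0 then 0 else ‖f s b‖ ^ 2 := by
    intro s
    rw [norm_sq, (summ _).tsum_eq_add_tsum_ite b0]
    ring
  have hs : ∀ s, Summable fun b => if b = b0 then 0 else ‖f s b‖ ^ 2 := by
    intro s
    refine Summable.of_nonneg_of_le (fun b => ?_) (fun b => ?_) (summ (f s))
    · split_ifs <;> positivity
    · split_ifs
      · positivity
      · exact le_rfl
  have hs' : Summable fun b => if b = b0 then 0 else ‖∑ s, f s b‖ ^ 2 := by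
    refine Summable.of_nonneg_of_le (fun b => ?_) (fun b => ?_) (summ (∑ s, f s))
    · split_ifs <;> positivity
    · rw [sum_apply]
      split_ifs
      · positivity
      · exact le_rfl
  rw [h1]
  gcongr
  rw [Finset.sum_congr rfl fun s _ => h2 s, ← Summable.tsum_finsetSum fun s _ => hs s,
    ← tsum_mul_left]
  refine Summable.tsum_le_tsum (fun b => ?_) hs' ((summable_sum fun s _ => hs s).mul_left _)
  by_cases hb : b = b0
  · simp [hb]
  · simp only [if_neg hb]
    have h3 : ∑ s, f s b = ∑ s : σ with f s b ≠ 0, f s b := by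
      rw [Finset.sum_filter]
      refine Finset.sum_congr rfl fun s _ => ?_
      split_ifs with h
      · rfl
      · push Not at h
        exact h
    have h4 : ‖∑ s, f s b‖ ≤ ∑ s : σ with f s b ≠ 0, ‖f s b‖ := by
      rw [h3]
      exact norm_sum_le _ _
    have h5 : (∑ s : σ with f s b ≠ 0, ‖f s b‖) ^ 2
        ≤ (Finset.univ.filter fun s : σ => f s b ≠ 0).card * ∑ s : σ with f s b ≠ 0, ‖f s b‖ ^ 2 :=
      sq_sum_le_card_mul_sum_sq
    have h6 : (Finset.univ.filter fun s : σ => f s b ≠ 0).card ≤ N := by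
      have := hN b hb
      rwa [Set.ncard_eq_toFinset_card', Set.toFinset_ofPred] at this
    have h7 : ∑ s : σ with f s b ≠ 0, ‖f s b‖ ^ 2 ≤ ∑ s, ‖f s b‖ ^ 2 :=
      Finset.sum_le_sum_of_subset_of_nonneg (Finset.filter_subset _ _)
        fun _ _ _ => by positivity
    calc ‖∑ s, f s b‖ ^ 2 ≤ (∑ s : σ with f s b ≠ 0, ‖f s b‖) ^ 2 :=
          pow_le_pow_left₀ (norm_nonneg _) h4 2
      _ ≤ _ := h5
      _ ≤ N * ∑ s, ‖f s b‖ ^ 2 := by
          gcongr

/-- **The comparison of distances.** -/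
theorem compare {σ : Type*} [Fintype σ] (K : Set (L2 β)) (h0 : (0 : L2 β) ∈ K)
    (K' : Submodule ℂ (L2 α)) (hK' : IsClosed (K' : Set (L2 α)))
    (e : σ → α → β) (he : ∀ s, Function.Injective (e s)) (a : σ → α) (b0 : β)
    (hea : ∀ s, e s (a s) = b0) (hmap : ∀ s, ∀ y ∈ K, pull (e s) (he s) y ∈ K') (N : ℕ)
    (hN : ∀ b, b ≠ b0 → {s | b ∈ Set.range (e s)}.ncard ≤ N) (ρ : σ → ℝ)
    (hρ : ∀ s, ρ s = Metric.infDist (sd (a s)) (K' : Set (L2 α)) ^ 2) :
    (∑ s, ρ s) ^ 2 ≤ Metric.infDist (sd b0) K ^ 2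
      * ((∑ s, ρ s) ^ 2 + N * (∑ s, ρ s - ∑ s, ρ s ^ 2)) := by
  classical
  choose u hu1 hu2 hu3 using fun s => exists_perp K' hK' (a s)
  set p : σ → L2 β := fun s => push (e s) (he s) (u s) with hp
  have hp0 : ∀ s, p s b0 = ((ρ s : ℝ) : ℂ) := by
    intro s
    rw [hp]
    simp only
    rw [← hea s, push_apply, hu3, hρ]
  have hpn : ∀ s, ‖p s‖ ^ 2 = ρ s := by
    intro s
    rw [hp]
    simp only
    rw [norm_push, hu2, hρ]
  have hρ0 : ∀ s, 0 ≤ ρ s := fun s => by
    rw [hρ]
    positivity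
  set w : L2 β := ∑ s, p s with hw
  have hw1 : ∀ x ∈ K, ⟪w, x⟫_ℂ = 0 := by
    intro x hx
    rw [hw, sum_inner]
    refine Finset.sum_eq_zero fun s _ => ?_
    rw [hp]
    simp only
    rw [inner_push]
    exact hu1 s _ (hmap s x hx)
  have hw2 : w b0 = ((∑ s, ρ s : ℝ) : ℂ) := by
    rw [hw, sum_apply, Complex.ofReal_sum]
    exact Finset.sum_congr rfl fun s _ => hp0 s
  have h1 := dist_bound K h0 (sd b0) w hw1
  rw [inner_sd_left, hw2, Complex.norm_real, Real.norm_of_nonneg
    (Finset.sum_nonneg fun s _ => hρ0 s)] at h1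
  have h2 : ‖w‖ ^ 2 ≤ (∑ s, ρ s) ^ 2 + N * (∑ s, ρ s - ∑ s, ρ s ^ 2) := by
    have h3 := norm_sum_sq_le p b0 N (fun b hb => ?_)
    · rw [← hw] at h3
      refine h3.trans (le_of_eq ?_)
      have h4 : ∑ s, p s b0 = ((∑ s, ρ s : ℝ) : ℂ) := by
        rw [Complex.ofReal_sum]
        exact Finset.sum_congr rfl fun s _ => hp0 s
      rw [h4, Complex.norm_real, Real.norm_of_nonneg (Finset.sum_nonneg fun s _ => hρ0 s),
        ← Finset.sum_sub_distrib]
      congr 2
      refine Finset.sum_congr rfl fun s _ => ?_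
      rw [hpn, hp0, Complex.norm_real, Real.norm_of_nonneg (hρ0 s)]
    · refine (Set.ncard_le_ncard ?_ (Set.toFinite _)).trans (hN b hb)
      intro s hs
      by_contra hcon
      exact hs (push_apply' _ _ _ _ hcon)
  have h3 := pow_le_pow_left₀ (Finset.sum_nonneg fun s _ => hρ0 s) h1 2
  rw [mul_pow] at h3
  exact h3.trans (mul_le_mul_of_nonneg_left h2 (sq_nonneg _))

/-- The comparison of distances, with the number of the points. -/
theorem compare_card {σ : Type*} [Fintype σ] [Nonempty σ] (K : Set (L2 β))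
    (h0 : (0 : L2 β) ∈ K)
    (K' : Submodule ℂ (L2 α)) (hK' : IsClosed (K' : Set (L2 α)))
    (e : σ → α → β) (he : ∀ s, Function.Injective (e s)) (a : σ → α) (b0 : β)
    (hea : ∀ s, e s (a s) = b0) (hmap : ∀ s, ∀ y ∈ K, pull (e s) (he s) y ∈ K') (N : ℕ)
    (hN : ∀ b, b ≠ b0 → {s | b ∈ Set.range (e s)}.ncard ≤ N) (R r : ℝ)
    (hR : R = ∑ s, Metric.infDist (sd (a s)) (K' : Set (L2 α)) ^ 2)
    (hr : r = Metric.infDist (sd b0) K ^ 2) :
    R ≤ r * (R + N * (1 - R / Fintype.card σ)) := by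
  have h1 := compare K h0 K' hK' e he a b0 hea hmap N hN
    (fun s => Metric.infDist (sd (a s)) (K' : Set (L2 α)) ^ 2) (fun s => rfl)
  rw [← hR, ← hr] at h1
  have hk : (0 : ℝ) < Fintype.card σ := by exact_mod_cast Fintype.card_pos
  have h2 : R ^ 2 ≤ Fintype.card σ
      * ∑ s, (Metric.infDist (sd (a s)) (K' : Set (L2 α)) ^ 2) ^ 2 := by
    rw [hR]
    have := sq_sum_le_card_mul_sum_sq (s := (Finset.univ : Finset σ))
      (f := fun s => Metric.infDist (sd (a s)) (K' : Set (L2 α)) ^ 2)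
    simpa using this
  have h3 : R ^ 2 / Fintype.card σ
      ≤ ∑ s, (Metric.infDist (sd (a s)) (K' : Set (L2 α)) ^ 2) ^ 2 := by
    rw [div_le_iff₀ hk]
    linarith
  have hr0 : 0 ≤ r := by
    rw [hr]
    positivity
  have hR0 : 0 ≤ R := by
    rw [hR]
    positivity
  have hN0 : (0 : ℝ) ≤ N := Nat.cast_nonneg _
  have h4 : R ^ 2 ≤ r * (R ^ 2 + N * (R - R ^ 2 / Fintype.card σ)) := by
    refine h1.trans (mul_le_mul_of_nonneg_left ?_ hr0)
    have := mul_le_mul_of_nonneg_left h3 hN0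
    nlinarith
  rcases eq_or_lt_of_le hR0 with h | h
  · rw [← h]
    simp only [zero_div, sub_zero, mul_one, zero_add]
    positivity
  · have h5 : R * R ≤ R * (r * (R + N * (1 - R / Fintype.card σ))) := by
      have h6 : R * (r * (R + N * (1 - R / Fintype.card σ)))
          = r * (R ^ 2 + N * (R - R ^ 2 / Fintype.card σ)) := by
        field_simp
      rw [h6]
      nlinarith
    exact le_of_mul_le_mul_left h5 h

end Pool.Agent.W5h92.CR
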