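import Pool.Agent.W5h92.CR.Grp
import Pool.Agent.W649.ZL.Mat
import Pool.Agent.W649.ZL.Lead

set_option autoImplicit false
set_option linter.unusedSectionVars false

/-!
# Columns over group rings without zero divisors on `ℓ²`
-/

open scoped InnerProductSpace ENNReal

noncomputable section

namespace Pool.Agent.W5h92.CR

open Pool.Agent.W649.ZL

universe u

/-- right multiplication by a nonzero element of the complex group ring is injective on `ℓ²` -/
def Reg (H : Type u) [Group H] : Prop :=
  ∀ a : H →₀ ℂ, a ≠ 0 → ∀ f : H → ℂ, Memℓp f 2 →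
    (∀ g, a.sum (fun h c => f (g * h⁻¹) * c) = 0) → f = 0

section
variable {H : Type u} [Group H] {J : Type} [Fintype J]

theorem share_sum (c : Matrix J (Fin 1) (H →₀ ℂ)) (j0 : J)
    (hc : ∀ f : H → ℂ, Memℓp f 2 → (∀ g, (c j0 0).sum (fun h z => f (g * h⁻¹) * z) = 0) → f = 0) :
    1 ≤ ∑ j, share c j ∧ ∑ j, share c j ≤ 1 := by
  classical
  set T : Finset H := Finset.univ.biUnion fun j => (c j 0).support with hT
  have hTs : ∀ k j, (c k j).support ⊆ T := by
    intro k j
    rw [Subsingleton.elim j 0, hT]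
    exact Finset.subset_biUnion_of_mem (fun j => (c j 0).support) (Finset.mem_univ k)
  set ha : T × J × Fin 1 → H := fun i => (i.1 : H) with hha
  set ka : T × J × Fin 1 → J := fun i => i.2.1 with hka
  set ja : T × J × Fin 1 → Fin 1 := fun i => i.2.2 with hja
  have hm : matM ha ka ja (coefT T c) = c := matM_coefT T c hTs
  set L := lin (famR ha ka ja) (coefT T c) with hL
  have hLe : Eqv L := lin_eqv _ (famR_eqv ha ka ja) _
  have himg := flp_image ha ka ja (coefT T c)
  rw [hm] at himg
  have hkd : ∑ j, share c j = Fintype.card J - vd (LinearMap.ker (L : EE H J →ₗ[ℂ] EE H (Fin 1))) := by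
    have h1 := kerDimM_eq ha ka ja (coefT T c)
    rw [hm] at h1
    unfold kd at h1
    rw [← hL] at h1
    rw [← h1]
    unfold kerDimM
    rw [Finset.sum_sub_distrib, Finset.sum_const, Finset.card_univ, nsmul_eq_mul, mul_one,
      sub_sub_cancel]
    refine Finset.sum_congr rfl fun j _ => ?_
    rw [share_eq, single_inst]
    rfl
  have htop : Pool.Agent.W649.ZL.Inv (⊤ : Submodule ℂ (EE H J)) := fun _ _ _ => trivial
  have h1 := rank_nullity L hLe htop isClosed_univ
  rw [vd_top, top_inf_eq] at h1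
  have h2 : ∑ j, share c j = vd ((⊤ : Submodule ℂ (EE H J)).map (L : EE H J →ₗ[ℂ] EE H (Fin 1))) := by
    rw [hkd]
    linarith
  rw [h2]
  constructor
  · have h3 := rank_nullity L hLe (cosub_inv (G := H) {j0}) (cosub_closed (G := H) {j0})
    rw [vd_cosub] at h3
    have h4 : cosub H {j0} ⊓ LinearMap.ker (L : EE H J →ₗ[ℂ] EE H (Fin 1)) = ⊥ := by
      rw [Submodule.eq_bot_iff]
      rintro F ⟨hF1, hF2⟩
      have hF3 : F ∈ (LinearMap.ker (L : EE H J →ₗ[ℂ] EE H (Fin 1)) : Set (EE H J)) := hF2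
      rw [hL, ← himg] at hF3
      obtain ⟨x, hx, rfl⟩ := hF3
      have h5 : ∀ j, j ≠ j0 → ∀ g, x (j, g) = 0 := by
        intro j hj g
        have := hF1 g⁻¹ j (by simpa using hj)
        rw [flp_apply, inv_inv] at this
        exact this
      have h6 : (fun g => x (j0, g)) = 0 := by
        apply hc
        · rw [memlp_iff]
          exact (summ x).comp_injective (i := fun g : H => (j0, g))
            (fun a b h => congrArg Prod.snd h)
        · intro g
          have h7 := hx 0 g
          rw [Finset.sum_eq_single j0] at h7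
          · exact h7
          · intro j _ hj
            refine Finset.sum_eq_zero fun h _ => ?_
            rw [h5 j hj, zero_mul]
          · intro h
            exact absurd (Finset.mem_univ _) h
      ext ⟨g, j⟩
      rw [flp_apply]
      by_cases hj : j = j0
      · subst hj
        exact congrFun h6 g⁻¹
      · exact h5 j hj _
    rw [h4, vd_bot, zero_add] at h3
    have h5 : vd ((cosub H {j0}).map (L : EE H J →ₗ[ℂ] EE H (Fin 1)))
        ≤ vd ((⊤ : Submodule ℂ (EE H J)).map (L : EE H J →ₗ[ℂ] EE H (Fin 1))) :=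
      vd_mono (Submodule.map_mono le_top)
    simp only [Finset.card_singleton, Nat.cast_one] at h3
    linarith
  · have h3 : vd ((⊤ : Submodule ℂ (EE H J)).map (L : EE H J →ₗ[ℂ] EE H (Fin 1)))
        ≤ vd (⊤ : Submodule ℂ (EE H (Fin 1))) := vd_mono le_top
    rw [vd_top] at h3
    simpa using h3

end

section
variable {H : Type u} [Group H]

/-- left convolution and right convolution -/
theorem reg_of_inj (a : H →₀ ℂ)
    (hinj : ∀ α : H →₀ ℂ, α = a.mapDomain (fun h => h⁻¹) → Function.Injective (cop α))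
    (f : H → ℂ) (hf : Memℓp f 2) (h : ∀ g, a.sum (fun h c => f (g * h⁻¹) * c) = 0) : f = 0 := by
  classical
  have hmem : Memℓp (fun x : H × Unit => f x.1⁻¹) 2 := by
    rw [memlp_two_iff] at hf ⊢
    have hin : Function.Injective (fun x : H × Unit => x.1⁻¹) := by
      rintro ⟨a, _⟩ ⟨b, _⟩ h
      have : a = b := inv_injective h
      rw [this]
    exact hf.comp_injective hin
  set F : EE H Unit := ⟨fun x => f x.1⁻¹, hmem⟩ with hF
  have h1 : cop (a.mapDomain (fun h => h⁻¹)) F = 0 := by
    ext ⟨x, _⟩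
    rw [cop_apply]
    change (a.mapDomain (fun h => h⁻¹)).sum (fun k c => c * F (k⁻¹ * x, ())) = 0
    rw [Finsupp.sum_mapDomain_index (by intro; rw [zero_mul]) (by intros; rw [add_mul])]
    have h2 := h x⁻¹
    have h3 : ∀ y : H, F (y⁻¹⁻¹ * x, ()) = f (x⁻¹ * y⁻¹) := by
      intro y
      rw [hF]
      show f (y⁻¹⁻¹ * x)⁻¹ = _
      rw [inv_inv, mul_inv_rev]
    refine Eq.trans ?_ h2
    refine Finsupp.sum_congr fun y _ => ?_
    rw [h3, mul_comm]
  have h2 : F = 0 := hinj _ rfl (by rw [h1, map_zero])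
  funext g
  have h3 : F (g⁻¹, ()) = 0 := by
    rw [h2]
    rfl
  have h4 : F (g⁻¹, ()) = f g := by
    rw [hF]
    show f (g⁻¹⁻¹) = _
    rw [inv_inv]
  rw [← h4, h3]
  rfl

/-- infinite cyclic groups -/
theorem reg_cyclic (t : H) (ht : ¬ IsOfFinOrder t) (hgen : ∀ x : H, x ∈ Subgroup.zpowers t) :
    Reg H := by
  classical
  intro a ha f hf h
  refine reg_of_inj a ?_ f hf h
  rintro α rfl
  refine cop_zpowers_injective t ht _ ?_ fun x _ => hgen x
  intro h0
  apply ha
  have h1 : Function.Injective (Finsupp.mapDomain (M := ℂ) (fun h : H => h⁻¹)) :=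
    Finsupp.mapDomain_injective inv_injective
  apply h1
  rw [h0, Finsupp.mapDomain_zero]

end

section
variable {G : Type u} [Group G] (H : Subgroup G) {ι κ : Type} [Fintype ι]

/-- the kernel of a matrix is contained in the kernel of a column -/
theorem share_col (A : Matrix ι κ (G →₀ ℂ)) (j : κ) (i : ι) :
    share (fun i' (_ : Fin 1) => A i' j : Matrix ι (Fin 1) (G →₀ ℂ)) i ≤ share A i := by
  rw [share_eq, share_eq]
  refine pow_le_pow_left₀ Metric.infDist_nonneg ?_ 2
  refine Metric.infDist_le_infDist_of_subset ?_ ⟨0, zero_mem_kernel A⟩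
  intro x hx _ g
  exact hx j g

/-- **Columns which meet few cosets.** -/
theorem col_bound (hH : Reg H) (A : Matrix ι κ (G →₀ ℂ)) (j : κ) (i0 : ι) (hj : A i0 j ≠ 0)
    {σ : ι → Type} [∀ i, Fintype (σ i)] (x : (i : ι) → σ i → G)
    (hx : ∀ i s s', (x i s)⁻¹ * x i s' ∈ H → s = s')
    (hA : ∀ i g, A i j g ≠ 0 → ∃ s, (x i s)⁻¹ * g ∈ H) (k N : ℕ) (hk : ∀ i, Fintype.card (σ i) ≤ k)
    (hNk : N ≤ k)
    (hN : ∀ (i i' : ι) (g : G), (i', g) ≠ (i, 1) →
      {p : σ i × σ i' | (x i p.1)⁻¹ * g * x i' p.2 ∈ H}.ncard ≤ N) :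
    1 ≤ (∑ i, share A i) * (1 + N * (1 - 1 / k)) := by
  classical
  set C : Matrix ι (Fin 1) (G →₀ ℂ) := fun i' _ => A i' j with hC
  set B := split H C x with hB
  -- a nonzero entry
  obtain ⟨g0, hg0⟩ := Finsupp.ne_iff.1 hj
  rw [Finsupp.zero_apply] at hg0
  obtain ⟨s0, hs0⟩ := hA i0 g0 hg0
  have hB0 : B ⟨i0, s0⟩ 0 ≠ 0 := by
    intro h
    have h1 := DFunLike.congr_fun h ⟨(x i0 s0)⁻¹ * g0, hs0⟩
    rw [hB] at h1
    unfold split at h1
    rw [Finsupp.comapDomain_apply] at h1
    simp only [mul_inv_cancel_left, Finsupp.zero_apply] at h1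
    exact hg0 h1
  obtain ⟨h1, h2⟩ := share_sum B ⟨i0, s0⟩ (fun f hf h => hH _ hB0 f hf h)
  rw [Fintype.sum_sigma] at h1 h2
  have hk0 : (0 : ℝ) < k := by
    have h3 : 0 < Fintype.card (σ i0) := Fintype.card_pos_iff.2 ⟨s0⟩
    have := hk i0
    exact_mod_cast h3.trans_le this
  have hN0 : (0 : ℝ) ≤ N := Nat.cast_nonneg _
  have hNk' : (N : ℝ) ≤ k := by exact_mod_cast hNk
  have hi : ∀ i, ∑ s, share B ⟨i, s⟩ ≤ share A i * (1 + N * (1 - 1 / k)) := by
    intro i
    have hs0' : 0 ≤ ∑ s, share B ⟨i, s⟩ := Finset.sum_nonneg fun s _ => share_nonneg _ _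
    have hs1 : ∑ s, share B ⟨i, s⟩ ≤ 1 := by
      refine le_trans ?_ h2
      exact Finset.single_le_sum (f := fun i => ∑ s, share B ⟨i, s⟩)
        (fun i _ => Finset.sum_nonneg fun s _ => share_nonneg _ _) (Finset.mem_univ i)
    have hA0 := share_nonneg A i
    rcases isEmpty_or_nonempty (σ i) with he | he
    · rw [Finset.univ_eq_empty, Finset.sum_empty]
      have : (0 : ℝ) ≤ 1 - 1 / k := by
        rw [sub_nonneg, div_le_one hk0]
        have : (1 : ℕ) ≤ k := by exact_mod_cast hk0
        exact_mod_cast this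
      positivity
    · have h3 := share_split H C x hx (fun i _ g h => hA i g h) i N (hN i) _ rfl
      rw [← hB] at h3
      set R := ∑ s, share B ⟨i, s⟩ with hR
      have hci : (0 : ℝ) < Fintype.card (σ i) := by exact_mod_cast Fintype.card_pos
      have hck : (Fintype.card (σ i) : ℝ) ≤ k := by exact_mod_cast hk i
      have h4 : R / k ≤ R / Fintype.card (σ i) := by gcongr
      have h5 : R + N * (1 - R / Fintype.card (σ i)) ≤ 1 + N * (1 - 1 / k) := by
        have h6 : R + N * (1 - R / Fintype.card (σ i)) ≤ R + N * (1 - R / k) := by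
          have := mul_le_mul_of_nonneg_left h4 hN0
          nlinarith
        refine h6.trans ?_
        have h7 : (1 + N * (1 - 1 / k)) - (R + N * (1 - R / k)) = (1 - R) * ((k - N) / k) := by
          field_simp
          ring
        have h8 : 0 ≤ (1 - R) * (((k : ℝ) - N) / k) :=
          mul_nonneg (by linarith) (div_nonneg (by linarith) hk0.le)
        linarith
      have h6 : share C i ≤ share A i := share_col A j i
      have h7 := share_nonneg C i
      have h8 : 0 ≤ 1 + N * (1 - 1 / (k : ℝ)) := by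
        have : (0 : ℝ) ≤ 1 - 1 / k := by
          rw [sub_nonneg, div_le_one hk0]
          have : (1 : ℕ) ≤ k := by exact_mod_cast hk0
          exact_mod_cast this
        positivity
      calc R ≤ share C i * (R + N * (1 - R / Fintype.card (σ i))) := h3
        _ ≤ share C i * (1 + N * (1 - 1 / k)) := mul_le_mul_of_nonneg_left h5 h7
        _ ≤ share A i * (1 + N * (1 - 1 / k)) := mul_le_mul_of_nonneg_right h6 h8
  calc (1 : ℝ) ≤ ∑ i, ∑ s, share B ⟨i, s⟩ := h1
    _ ≤ ∑ i, share A i * (1 + N * (1 - 1 / k)) := Finset.sum_le_sum fun i _ => hi i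
    _ = _ := by rw [Finset.sum_mul]

end

end Pool.Agent.W5h92.CR
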