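import Pool.Agent.H61R3.AT3

set_option autoImplicit false

/-!
# The energy of a column and the multiplicities of the quotients
-/

noncomputable section

namespace Pool.Agent.W5h92.CR

open H61R3AT

section
variable {G : Type*} [Group G] {κ : Type*} (S : Finset (κ × G))

theorem mem_Y' {p q : κ × G} (hp : p ∈ S) (hq : q ∈ S) : p.2⁻¹ * q.2 ∈ Y S := by
  classical
  unfold Y
  rw [Finset.mem_image]
  exact ⟨(p, q), Finset.mk_mem_product hp hq, rfl⟩

theorem group_sum [DecidableEq κ] [DecidableEq G] (F : κ × G → κ × G → ℝ) :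
    ∑ p ∈ S, ∑ q ∈ S, (if p.1 = q.1 then F p q else 0)
      = ∑ t ∈ Y S, ∑ p ∈ S, if (p.1, p.2 * t) ∈ S then F p (p.1, p.2 * t) else 0 := by
  rw [Finset.sum_comm (s := Y S)]
  refine Finset.sum_congr rfl fun p hp => ?_
  rw [← Finset.sum_filter, ← Finset.sum_filter]
  refine Finset.sum_bij (fun q _ => p.2⁻¹ * q.2) ?_ ?_ ?_ ?_
  · intro q hq
    rw [Finset.mem_filter] at hq ⊢
    refine ⟨?_, ?_⟩
    · exact mem_Y' S hp hq.1
    · rw [mul_inv_cancel_left]
      have : ((p.1, q.2) : κ × G) = q := Prod.ext hq.2 rfl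
      rw [this]
      exact hq.1
  · intro q hq q' hq' h
    rw [Finset.mem_filter] at hq hq'
    refine Prod.ext (hq.2.symm.trans hq'.2) ?_
    exact mul_left_cancel h
  · intro t ht
    rw [Finset.mem_filter] at ht
    refine ⟨(p.1, p.2 * t), ?_, ?_⟩
    · rw [Finset.mem_filter]
      exact ⟨ht.2, rfl⟩
    · simp
  · intro q hq
    rw [Finset.mem_filter] at hq
    have : ((p.1, p.2 * (p.2⁻¹ * q.2)) : κ × G) = q := by
      rw [mul_inv_cancel_left]
      exact Prod.ext hq.2 rfl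
    rw [this]

/-- **The energy**, if all the quotients different from `1` have multiplicity at most `N`. -/
theorem energy [DecidableEq κ] [DecidableEq G] (b : κ × G → ℝ) (h0 : ∀ p, p ∉ S → b p = 0) (N : ℕ)
    (hN : ∀ t : G, t ≠ 1 → cnt S t ≤ N) :
    QQ S b (zz S b) ≤ (∑ p ∈ S, b p ^ 2) ^ 2
      + N * ((∑ p ∈ S, b p ^ 2) ^ 2 - ∑ p ∈ S, (b p ^ 2) ^ 2) := by
  set X := ∑ p ∈ S, b p ^ 2 with hX
  have hz : ∀ t, zz S b t = ∑ p ∈ S, if (p.1, p.2 * t) ∈ S then b p * b (p.1, p.2 * t) else 0 := by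
    intro t
    unfold zz
    refine Finset.sum_congr rfl fun p _ => ?_
    split_ifs with h
    · rfl
    · rw [h0 _ h, mul_zero]
  have h1 : QQ S b (zz S b) = ∑ t ∈ Y S, zz S b t ^ 2 := by
    have e1 : QQ S b (zz S b) = ∑ p ∈ S, ∑ q ∈ S,
        (if p.1 = q.1 then b p * b q * zz S b (p.2⁻¹ * q.2) else 0) := by
      unfold QQ
      refine Finset.sum_congr rfl fun p _ => Finset.sum_congr rfl fun q _ => ?_
      split_ifs <;> rfl
    rw [e1, group_sum S (fun p q => b p * b q * zz S b (p.2⁻¹ * q.2))]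
    refine Finset.sum_congr rfl fun t _ => ?_
    rw [pow_two]
    conv_rhs => rw [hz t, Finset.sum_mul]
    refine Finset.sum_congr rfl fun p _ => ?_
    split_ifs with h
    · simp only [inv_mul_cancel_left]
      rw [← hz t]
    · rw [zero_mul]
  have hz1 : zz S b 1 = X := by
    unfold zz
    rw [hX]
    refine Finset.sum_congr rfl fun p _ => ?_
    rw [mul_one, pow_two]
  -- Cauchy-Schwarz for each quotient
  have h2 : ∀ t, t ≠ 1 → zz S b t ^ 2 ≤ N * ∑ p ∈ S,
      if (p.1, p.2 * t) ∈ S then b p ^ 2 * b (p.1, p.2 * t) ^ 2 else 0 := by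
    intro t ht
    rw [hz t, ← Finset.sum_filter, ← Finset.sum_filter]
    have h3 : (∑ p ∈ S with (p.1, p.2 * t) ∈ S, b p * b (p.1, p.2 * t)) ^ 2
        ≤ (S.filter fun p => (p.1, p.2 * t) ∈ S).card
          * ∑ p ∈ S with (p.1, p.2 * t) ∈ S, (b p * b (p.1, p.2 * t)) ^ 2 :=
      sq_sum_le_card_mul_sum_sq
    have h4 : (((S.filter fun p => (p.1, p.2 * t) ∈ S).card : ℕ) : ℝ) ≤ N := by
      have := hN t ht
      unfold cnt at this
      exact_mod_cast (le_of_eq (by congr)).trans this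
    refine h3.trans (le_trans (mul_le_mul_of_nonneg_right h4 (by positivity)) (le_of_eq ?_))
    congr 1
    exact Finset.sum_congr rfl fun p _ => mul_pow _ _ _
  -- the sum over all quotients different from one
  have h3 : ∑ t ∈ Y S, (if t = 1 then (0 : ℝ) else ∑ p ∈ S,
      if (p.1, p.2 * t) ∈ S then b p ^ 2 * b (p.1, p.2 * t) ^ 2 else 0)
      ≤ X ^ 2 - ∑ p ∈ S, (b p ^ 2) ^ 2 := by
    have e1 : ∑ t ∈ Y S, (if t = 1 then (0 : ℝ) else ∑ p ∈ S,
        if (p.1, p.2 * t) ∈ S then b p ^ 2 * b (p.1, p.2 * t) ^ 2 else 0)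
        = ∑ p ∈ S, ∑ q ∈ S, (if p.1 = q.1 then (if q = p then 0 else b p ^ 2 * b q ^ 2) else 0) := by
      rw [group_sum S (fun p q => if q = p then 0 else b p ^ 2 * b q ^ 2)]
      refine Finset.sum_congr rfl fun t _ => ?_
      split_ifs with h
      · subst h
        symm
        refine Finset.sum_eq_zero fun p _ => ?_
        simp
      · refine Finset.sum_congr rfl fun p _ => ?_
        split_ifs with h4 h5
        · exfalso
          have := congrArg Prod.snd h5
          simp only [mul_eq_left] at this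
          exact h this
        · rfl
        · rfl
    rw [e1]
    have e2 : X ^ 2 - ∑ p ∈ S, (b p ^ 2) ^ 2
        = ∑ p ∈ S, ∑ q ∈ S, (if q = p then 0 else b p ^ 2 * b q ^ 2) := by
      rw [pow_two, hX, Finset.sum_mul_sum, ← Finset.sum_sub_distrib]
      refine Finset.sum_congr rfl fun p hp => ?_
      have e3 : ∀ q, (if q = p then 0 else b p ^ 2 * b q ^ 2)
          = b p ^ 2 * b q ^ 2 - (if q = p then b p ^ 2 * b q ^ 2 else 0) := by
        intro q
        split_ifs <;> ring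
      rw [Finset.sum_congr rfl fun q _ => e3 q, Finset.sum_sub_distrib,
        Finset.sum_ite_eq' S p]
      rw [if_pos hp]
      ring
    rw [e2]
    refine Finset.sum_le_sum fun p _ => Finset.sum_le_sum fun q _ => ?_
    split_ifs
    · exact le_rfl
    · exact le_rfl
    · exact le_rfl
    · positivity
  rw [h1]
  calc ∑ t ∈ Y S, zz S b t ^ 2
      ≤ ∑ t ∈ Y S, ((if t = 1 then X ^ 2 else 0) + N * (if t = 1 then (0 : ℝ) else ∑ p ∈ S,
        if (p.1, p.2 * t) ∈ S then b p ^ 2 * b (p.1, p.2 * t) ^ 2 else 0)) := by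
        refine Finset.sum_le_sum fun t _ => ?_
        split_ifs with h
        · rw [h, hz1]
          simp
        · rw [zero_add]
          exact h2 t h
    _ = (∑ t ∈ Y S, if t = 1 then X ^ 2 else 0) + N * ∑ t ∈ Y S, (if t = 1 then (0 : ℝ) else
        ∑ p ∈ S, if (p.1, p.2 * t) ∈ S then b p ^ 2 * b (p.1, p.2 * t) ^ 2 else 0) := by
        rw [Finset.sum_add_distrib, Finset.mul_sum]
    _ ≤ X ^ 2 + N * (X ^ 2 - ∑ p ∈ S, (b p ^ 2) ^ 2) := by
        gcongr
        rw [Finset.sum_ite_eq']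
        split_ifs
        · exact le_rfl
        · positivity

end

section
variable {G : Type*} [Group G] {m : ℕ}

/-- The energy bound for a column. -/
theorem column_energy (S : Finset (Fin m × G)) (c : Fin m × G → ℂ) (hc : ∀ p, p ∈ S ↔ c p ≠ 0)
    (hS : S.Nonempty) (N : ℕ) (hN : ∀ t : G, t ≠ 1 → cnt S t ≤ N) (r : ℝ)
    (hr : r = ∑ k : Fin m, Metric.infDist (sd (k, 1) : lp (fun _ : Fin m × G => ℂ) 2)
      (Kc S c) ^ 2) :
    1 ≤ r * (1 + N * (1 - 1 / S.card)) := by
  classical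
  have hb : ∀ p : Fin m × G, 0 ≤ ‖c p‖ := fun p => norm_nonneg _
  have hb0 : ∀ p, p ∉ S → ‖c p‖ = 0 := by
    intro p hp
    rw [hc] at hp
    push Not at hp
    rw [hp, norm_zero]
  have hr0 : 0 ≤ r := by
    rw [hr]
    exact Finset.sum_nonneg fun _ _ => sq_nonneg _
  set X := ∑ p ∈ S, ‖c p‖ ^ 2 with hXd
  have hX : 0 < X := by
    apply Finset.sum_pos _ hS
    intro p hp
    have := (hc p).1 hp
    positivity
  have h1 := basic S c (fun p => ‖c p‖) hb hb0
  have h3 : (∑ p ∈ S, ‖c p‖ * ‖c p‖) = X :=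
    Finset.sum_congr rfl fun p _ => (pow_two _).symm
  rw [h3, ← hr] at h1
  have h2 := energy S (fun p => ‖c p‖) hb0 N hN
  rw [← hXd] at h2
  have hn : (0 : ℝ) < S.card := by exact_mod_cast hS.card_pos
  have h4 : X ^ 2 / S.card ≤ ∑ p ∈ S, (‖c p‖ ^ 2) ^ 2 := by
    rw [div_le_iff₀ hn]
    have := sq_sum_le_card_mul_sum_sq (s := S) (f := fun p => ‖c p‖ ^ 2)
    rw [← hXd] at this
    linarith
  have hN0 : (0 : ℝ) ≤ N := Nat.cast_nonneg _
  have h5 : X ^ 2 ≤ r * (X ^ 2 + N * (X ^ 2 - X ^ 2 / S.card)) := by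
    refine h1.trans (mul_le_mul_of_nonneg_left (h2.trans ?_) hr0)
    have := mul_le_mul_of_nonneg_left h4 hN0
    nlinarith
  have h6 : r * (X ^ 2 + N * (X ^ 2 - X ^ 2 / S.card))
      = X ^ 2 * (r * (1 + N * (1 - 1 / S.card))) := by
    field_simp
  rw [h6] at h5
  have h7 : X ^ 2 * 1 ≤ X ^ 2 * (r * (1 + N * (1 - 1 / S.card))) := by
    rw [mul_one]
    exact h5
  exact le_of_mul_le_mul_left h7 (by positivity)

end

end Pool.Agent.W5h92.CR
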