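import Pool.Agent.W5h92.CR.Abs

set_option autoImplicit false
set_option linter.unusedSectionVars false

/-!
# Kernels of matrices over complex group rings and cosets of a subgroup
-/

open scoped InnerProductSpace ENNReal

noncomputable section

namespace Pool.Agent.W5h92.CR

universe u

theorem continuous_eval {α : Type*} (a : α) : Continuous fun x : L2 α => x a := by
  have h : (fun x : L2 α => x a) = fun x : L2 α => ⟪sd a, x⟫_ℂ := by
    funext x
    rw [inner_sd_left]
  rw [h]
  exact continuous_const.inner continuous_id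

/-- The kernel of right multiplication by the matrix `A` over the complex group ring of `G` on the
row vectors over `ℓ²(G)`. -/
def kernel {G : Type u} [Group G] {ι κ : Type} [Fintype ι] (A : Matrix ι κ (G →₀ ℂ)) :
    Set (lp (fun _ : ι × G => ℂ) 2) :=
  {x | ∀ (j : κ) (g : G), ∑ i, (A i j).sum (fun h c => x (i, g * h⁻¹) * c) = 0}

section
variable {G : Type u} [Group G] {ι κ : Type} [Fintype ι] (A : Matrix ι κ (G →₀ ℂ))

/-- the kernel as a subspace -/
def kerSub : Submodule ℂ (L2 (ι × G)) where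
  carrier := kernel A
  zero_mem' := by
    intro j g
    simp [Finsupp.sum]
  add_mem' := by
    intro x y hx hy j g
    have h1 := hx j g
    have h2 := hy j g
    simp only [Finsupp.sum] at h1 h2 ⊢
    have h3 : ∀ p, (x + y) p = x p + y p := fun p => rfl
    simp only [h3, add_mul, Finset.sum_add_distrib]
    rw [h1, h2, add_zero]
  smul_mem' := by
    intro c x hx j g
    have h1 := hx j g
    simp only [Finsupp.sum] at h1 ⊢
    have h3 : ∀ p, (c • x) p = c * x p := fun p => rfl
    simp only [h3, mul_assoc, ← Finset.mul_sum]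
    rw [h1, mul_zero]

theorem zero_mem_kernel : (0 : L2 (ι × G)) ∈ kernel A := (kerSub A).zero_mem

theorem isClosed_kernel : IsClosed (kernel A) := by
  have h : kernel A = ⋂ (j : κ) (g : G),
      {x : L2 (ι × G) | ∑ i, (A i j).sum (fun h c => x (i, g * h⁻¹) * c) = 0} := by
    ext x
    simp [kernel]
  rw [h]
  refine isClosed_iInter fun j => isClosed_iInter fun g => isClosed_eq ?_ continuous_const
  refine continuous_finsetSum _ fun i _ => ?_
  unfold Finsupp.sum
  exact continuous_finsetSum _ fun h _ => (continuous_eval _).mul continuous_const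

end

section
variable {G : Type u} [Group G] (H : Subgroup G) {ι κ : Type} [Fintype ι]
  (A : Matrix ι κ (G →₀ ℂ)) {σ : ι → Type} [∀ i, Fintype (σ i)] (x : (i : ι) → σ i → G)

/-- The matrix over the complex group ring of `H` with a row for each row `i` of `A` and each of the
given elements `x i s` of `G`: the coefficient of `h` in the new entry is the coefficient of
`x i s * h` in the entry of `A`. -/
def split : Matrix ((i : ι) × σ i) κ (H →₀ ℂ) := fun p j =>
  (A p.1 j).comapDomain (fun h : H => x p.1 p.2 * h)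
    (fun _ _ _ _ e => Subtype.ext (mul_left_cancel e))

theorem sum_cosets {τ : Type} [Fintype τ] (y : τ → G)
    (hy : ∀ s s', (y s)⁻¹ * y s' ∈ H → s = s') (a : G →₀ ℂ)
    (ha : ∀ g, a g ≠ 0 → ∃ s, (y s)⁻¹ * g ∈ H) (Φ : G → ℂ → ℂ) :
    ∑ s, (a.comapDomain (fun h : H => y s * h)
      (fun _ _ _ _ e => Subtype.ext (mul_left_cancel e))).sum (fun h c => Φ (y s * h) c)
      = a.sum Φ := by
  classical
  have h1 : ∀ s, (a.comapDomain (fun h : H => y s * h)
      (fun _ _ _ _ e => Subtype.ext (mul_left_cancel e))).sum (fun h c => Φ (y s * h) c)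
      = ∑ g ∈ a.support, if (y s)⁻¹ * g ∈ H then Φ g (a g) else 0 := by
    intro s
    unfold Finsupp.sum
    simp only [Finsupp.comapDomain_apply]
    rw [← Finset.sum_filter]
    refine Finset.sum_bij (fun (h : H) _ => y s * (h : G)) ?_ ?_ ?_ ?_
    · intro h hh
      rw [Finset.mem_filter]
      refine ⟨?_, ?_⟩
      · rw [Finsupp.mem_support_iff] at hh ⊢
        rwa [Finsupp.comapDomain_apply] at hh
      · rw [inv_mul_cancel_left]
        exact h.2
    · intro h _ h' _ e
      exact Subtype.ext (mul_left_cancel e)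
    · intro g hg
      rw [Finset.mem_filter] at hg
      refine ⟨⟨(y s)⁻¹ * g, hg.2⟩, ?_, ?_⟩
      · rw [Finsupp.mem_support_iff, Finsupp.comapDomain_apply]
        simp only [mul_inv_cancel_left]
        exact Finsupp.mem_support_iff.1 hg.1
      · simp
    · intro h _
      rfl
  rw [Finset.sum_congr rfl fun s _ => h1 s, Finset.sum_comm]
  unfold Finsupp.sum
  refine Finset.sum_congr rfl fun g hg => ?_
  obtain ⟨s, hs⟩ := ha g (Finsupp.mem_support_iff.1 hg)
  rw [Finset.sum_eq_single s]
  · rw [if_pos hs]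
  · intro s' _ hne
    rw [if_neg]
    intro hs'
    apply hne
    apply hy
    have : (y s')⁻¹ * y s = ((y s')⁻¹ * g) * ((y s)⁻¹ * g)⁻¹ := by group
    rw [this]
    exact H.mul_mem hs' (H.inv_mem hs)
  · intro h
    exact absurd (Finset.mem_univ _) h

/-- the injections of the index sets -/
def emb (t : G) (p : ((i : ι) × σ i) × H) : ι × G := (p.1.1, t * p.2 * (x p.1.1 p.1.2)⁻¹)

theorem emb_injective (hx : ∀ i s s', (x i s)⁻¹ * x i s' ∈ H → s = s') (t : G) :
    Function.Injective (emb H x t) := by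
  rintro ⟨⟨i, s⟩, h⟩ ⟨⟨i', s'⟩, h'⟩ he
  unfold emb at he
  simp only [Prod.mk.injEq] at he
  obtain ⟨hi, he⟩ := he
  subst hi
  have h1 : (x i s)⁻¹ * x i s' = (h : G)⁻¹ * h' := by
    have h2 : (h : G) * (x i s)⁻¹ = h' * (x i s')⁻¹ := by
      have := congrArg (fun z => t⁻¹ * z) he
      simpa [mul_assoc] using this
    have h3 : (x i s)⁻¹ = (h : G)⁻¹ * (h' * (x i s')⁻¹) := by
      rw [← h2, inv_mul_cancel_left]
    rw [h3]
    group
  have h2 : s = s' := hx i s s' (by
    rw [h1]
    exact H.mul_mem (H.inv_mem h.2) h'.2)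
  subst h2
  have h3 : (h : G) = h' := by
    rw [inv_mul_cancel] at h1
    exact (inv_mul_eq_one.1 h1.symm)
  have h4 : h = h' := Subtype.ext h3
  rw [h4]

theorem pull_mem (hx : ∀ i s s', (x i s)⁻¹ * x i s' ∈ H → s = s')
    (hA : ∀ i j g, A i j g ≠ 0 → ∃ s, (x i s)⁻¹ * g ∈ H) (t : G) (y : L2 (ι × G))
    (hy : y ∈ kernel A) : pull (emb H x t) (emb_injective H x hx t) y ∈ kernel (split H A x) := by
  intro j g
  have h1 := hy j (t * g)
  rw [Fintype.sum_sigma]
  rw [← h1]
  refine Finset.sum_congr rfl fun i _ => ?_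
  rw [← sum_cosets H (x i) (hx i) (A i j) (hA i j) (fun g' c => y (i, t * g * g'⁻¹) * c)]
  refine Finset.sum_congr rfl fun s _ => ?_
  unfold split
  refine Finsupp.sum_congr fun h _ => ?_
  rw [pull_apply]
  unfold emb
  simp only
  congr 3
  push_cast
  group

end

open Classical in
/-- The squared distance from the basis vector at `(i, 1)` to the kernel. -/
def share {G : Type u} [Group G] {ι κ : Type} [Fintype ι] (A : Matrix ι κ (G →₀ ℂ)) (i : ι) : ℝ :=
  Metric.infDist (lp.single (E := fun _ : ι × G => ℂ) 2 (i, (1 : G)) (1 : ℂ)) (kernel A) ^ 2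

theorem single_inst {α : Type*} (d : DecidableEq α) (a : α) :
    (lp.single (E := fun _ : α => ℂ) 2 a (1 : ℂ)) = sd a := by
  have h : d = fun a b => Classical.propDecidable (a = b) := Subsingleton.elim _ _
  subst h
  rfl

theorem share_eq {G : Type u} [Group G] {ι κ : Type} [Fintype ι] (A : Matrix ι κ (G →₀ ℂ))
    (i : ι) : share A i = Metric.infDist (sd (i, (1 : G))) (kernel A) ^ 2 := by
  unfold share
  rw [single_inst]

theorem share_nonneg {G : Type u} [Group G] {ι κ : Type} [Fintype ι] (A : Matrix ι κ (G →₀ ℂ))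
    (i : ι) : 0 ≤ share A i := sq_nonneg _

/-- **The comparison of the shares.** -/
theorem share_split {G : Type u} [Group G] (H : Subgroup G) {ι κ : Type} [Fintype ι]
    (A : Matrix ι κ (G →₀ ℂ)) {σ : ι → Type} [∀ i, Fintype (σ i)] (x : (i : ι) → σ i → G)
    (hx : ∀ i s s', (x i s)⁻¹ * x i s' ∈ H → s = s')
    (hA : ∀ i j g, A i j g ≠ 0 → ∃ s, (x i s)⁻¹ * g ∈ H) (i : ι) [Nonempty (σ i)] (N : ℕ)
    (hN : ∀ (i' : ι) (g : G), (i', g) ≠ (i, 1) →
      {p : σ i × σ i' | (x i p.1)⁻¹ * g * x i' p.2 ∈ H}.ncard ≤ N) (R : ℝ)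
    (hR : R = ∑ s, share (split H A x) ⟨i, s⟩) :
    R ≤ share A i * (R + N * (1 - R / Fintype.card (σ i))) := by
  refine compare_card (kernel A) (zero_mem_kernel A) (kerSub (split H A x))
    (isClosed_kernel (split H A x)) (fun s => emb H x (x i s))
    (fun s => emb_injective H x hx (x i s)) (fun s => (⟨i, s⟩, 1)) (i, 1) ?_ ?_ N ?_ R (share A i)
    ?_ (share_eq A i)
  · intro s
    unfold emb
    simp
  · intro s y hy
    exact pull_mem H A x hx hA (x i s) y hy
  · rintro ⟨i', g⟩ hne
    refine le_trans ?_ (hN i' g hne)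
    have hsub : {s | (i', g) ∈ Set.range (emb H x (x i s))}
        ⊆ Prod.fst '' {p : σ i × σ i' | (x i p.1)⁻¹ * g * x i' p.2 ∈ H} := by
      rintro s ⟨⟨⟨i'', s'⟩, h⟩, he⟩
      unfold emb at he
      simp only [Prod.mk.injEq] at he
      obtain ⟨hi, he⟩ := he
      subst hi
      refine ⟨(s, s'), ?_, rfl⟩
      show (x i s)⁻¹ * g * x i'' s' ∈ H
      rw [← he]
      have : (x i s)⁻¹ * (x i s * (h : G) * (x i'' s')⁻¹) * x i'' s' = h := by group
      rw [this]
      exact h.2
    exact (Set.ncard_le_ncard hsub (Set.toFinite _)).trans (Set.ncard_image_le (Set.toFinite _))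
  · rw [hR]
    exact Finset.sum_congr rfl fun s _ => share_eq _ _

/-- there are at most as many coincidences as cosets -/
theorem ncard_le {G : Type u} [Group G] (H : Subgroup G) {ι : Type}
    {σ : ι → Type} [∀ i, Fintype (σ i)] (x : (i : ι) → σ i → G)
    (hx : ∀ i s s', (x i s)⁻¹ * x i s' ∈ H → s = s') (i i' : ι) (g : G) :
    {p : σ i × σ i' | (x i p.1)⁻¹ * g * x i' p.2 ∈ H}.ncard ≤ Fintype.card (σ i) := by
  rw [← Nat.card_eq_fintype_card, ← Set.ncard_univ]
  refine Set.ncard_le_ncard_of_injOn Prod.fst (fun _ _ => Set.mem_univ _) ?_ (Set.toFinite _)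
  rintro ⟨s, s'⟩ hs ⟨t, t'⟩ ht h
  simp only at h
  subst h
  have h1 : (x i' s')⁻¹ * x i' t' ∈ H := by
    have h2 : (x i' s')⁻¹ * x i' t' = ((x i s)⁻¹ * g * x i' s')⁻¹ * ((x i s)⁻¹ * g * x i' t') := by
      group
    rw [h2]
    exact H.mul_mem (H.inv_mem hs) ht
  rw [hx i' s' t' h1]

/-- The comparison of the shares, without the coincidences. -/
theorem share_split_le {G : Type u} [Group G] (H : Subgroup G) {ι κ : Type} [Fintype ι]
    (A : Matrix ι κ (G →₀ ℂ)) {σ : ι → Type} [∀ i, Fintype (σ i)] (x : (i : ι) → σ i → G)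
    (hx : ∀ i s s', (x i s)⁻¹ * x i s' ∈ H → s = s')
    (hA : ∀ i j g, A i j g ≠ 0 → ∃ s, (x i s)⁻¹ * g ∈ H) (i : ι) :
    ∑ s, share (split H A x) ⟨i, s⟩ ≤ Fintype.card (σ i) * share A i := by
  rcases isEmpty_or_nonempty (σ i) with h | h
  · simp
  · have h1 := share_split H A x hx hA i (Fintype.card (σ i))
      (fun i' g _ => ncard_le H x hx i i' g) _ rfl
    have hk : (0 : ℝ) < Fintype.card (σ i) := by exact_mod_cast Fintype.card_pos
    refine h1.trans (le_of_eq ?_)
    field_simp
    ring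

end Pool.Agent.W5h92.CR
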