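import Pool.Agent.W5h92.CR.Energy
import Pool.Agent.W5h92.CR.Col

set_option autoImplicit false
set_option linter.unusedSectionVars false

/-!
# Columns over torsion-free groups
-/

open scoped InnerProductSpace ENNReal

noncomputable section

namespace Pool.Agent.W5h92.CR

universe u

section
variable {G : Type u} [Group G]

/-- the cosets of `⟨t⟩` met by a finite set -/
theorem cosets_card (t : G) (ht : ¬ IsOfFinOrder t) (F : Finset G) [DecidableEq G]
    [DecidableEq (G ⧸ Subgroup.zpowers t)] :
    (F.image (fun g : G => (QuotientGroup.mk g : G ⧸ Subgroup.zpowers t))).card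
      ≤ (F.filter fun g => g * t ∉ F).card := by
  have hsub : F.image (fun g : G => (QuotientGroup.mk g : G ⧸ Subgroup.zpowers t))
      ⊆ (F.filter fun g => g * t ∉ F).image
        (fun g : G => (QuotientGroup.mk g : G ⧸ Subgroup.zpowers t)) := by
    intro C hC
    rw [Finset.mem_image] at hC ⊢
    obtain ⟨g0, hg0, rfl⟩ := hC
    by_contra hcon
    push Not at hcon
    have h1 : ∀ n : ℕ, g0 * t ^ n ∈ F := by
      intro n
      induction n with
      | zero => simpa using hg0
      | succ n ih =>
        by_contra h2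
        apply hcon (g0 * t ^ n)
        · rw [Finset.mem_filter]
          refine ⟨ih, ?_⟩
          rwa [mul_assoc, ← pow_succ]
        · rw [QuotientGroup.eq]
          refine ⟨-(n : ℤ), ?_⟩
          simp
    have h2 : Function.Injective fun n : ℕ => g0 * t ^ n := by
      intro a b hab
      have := mul_left_cancel hab
      exact injective_pow_iff_not_isOfFinOrder.2 ht this
    exact (Set.infinite_of_injective_forall_mem h2 h1) (Finset.finite_toSet F)
  exact (Finset.card_le_card hsub).trans Finset.card_image_le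

/-- **Torsion-free groups.** -/
theorem tf_bound (htf : ∀ g : G, IsOfFinOrder g → g = 1) {m l : ℕ}
    (A : Matrix (Fin m) (Fin l) (G →₀ ℂ)) (j : Fin l) (hj : ∃ k, A k j ≠ 0)
    (n : ℕ) (hn : n = ∑ k, (A k j).support.card) (r : ℝ) (hr : r = ∑ i, share A i) :
    2 * n / ((n : ℝ) ^ 2 + 1) ≤ r ∧ (Even n → 2 / n ≤ r) := by
  classical
  set c : Fin m × G → ℂ := fun p => A p.1 j p.2 with hc
  set S : Finset (Fin m × G) := (Finset.univ.sigma fun k : Fin m => (A k j).support).map
    (Equiv.sigmaEquivProd (Fin m) G).toEmbedding with hS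
  have hmem : ∀ p, p ∈ S ↔ c p ≠ 0 := by
    intro p
    rw [hS, Finset.mem_map_equiv, Finset.mem_sigma]
    simp [hc]
  have hcard : S.card = n := by
    rw [hS, Finset.card_map, Finset.card_sigma, hn]
  have hne : S.Nonempty := by
    obtain ⟨k, hk⟩ := hj
    obtain ⟨h, hh⟩ := Finsupp.ne_iff.1 hk
    exact ⟨(k, h), (hmem _).2 (by simpa [hc] using hh)⟩
  have hn1 : 1 ≤ n := by
    rw [← hcard]
    exact hne.card_pos
  have hn1' : (1 : ℝ) ≤ n := by exact_mod_cast hn1
  have hr0 : 0 ≤ r := by
    rw [hr]
    exact Finset.sum_nonneg fun _ _ => share_nonneg _ _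
  set N := (n - 1) / 2 with hN
  have hN2 : 2 * N ≤ n - 1 := by omega
  have hN2' : 2 * (N : ℝ) ≤ n - 1 := by
    have h1 : 2 * N + 1 ≤ n := by omega
    have h2 : ((2 * N + 1 : ℕ) : ℝ) ≤ n := by exact_mod_cast h1
    push_cast at h2
    linarith
  by_cases hall : ∀ t : G, t ≠ 1 → H61R3AT.cnt S t ≤ N
  · -- the energy bound
    have h1 := column_energy S c hmem hne N hall _ rfl
    rw [hcard] at h1
    set r' := ∑ k : Fin m, Metric.infDist
      (H61R3AT.sd (k, 1) : lp (fun _ : Fin m × G => ℂ) 2) (H61R3AT.Kc S c) ^ 2 with hr'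
    have hsub : kernel A ⊆ H61R3AT.Kc S c := by
      intro x hx g
      have := hx j g
      rw [hS, Finset.sum_map, Finset.sum_sigma]
      exact this
    have h2 : r' ≤ r := by
      rw [hr, hr']
      refine Finset.sum_le_sum fun i _ => ?_
      rw [share_eq]
      refine pow_le_pow_left₀ Metric.infDist_nonneg ?_ 2
      have h3 := Metric.infDist_le_infDist_of_subset (x := (H61R3AT.sd (i, 1) :
        lp (fun _ : Fin m × G => ℂ) 2)) hsub ⟨0, zero_mem_kernel A⟩
      refine h3.trans (le_of_eq ?_)
      unfold H61R3AT.sd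
      rw [single_inst]
    have h3 : 0 ≤ 1 + (N : ℝ) * (1 - 1 / n) := by
      have : (0 : ℝ) ≤ 1 - 1 / n := by
        rw [sub_nonneg, div_le_one (by linarith)]
        exact hn1'
      positivity
    have h4 : 1 ≤ r * (1 + (N : ℝ) * (1 - 1 / n)) :=
      h1.trans (mul_le_mul_of_nonneg_right h2 h3)
    have hn0 : (0 : ℝ) < n := by linarith
    have h5 : (1 : ℝ) - 1 / n = (n - 1) / n := by field_simp
    have h6 : (n : ℝ) ≤ r * (n + N * (n - 1)) := by
      rw [h5] at h4
      have h7 : r * (n + N * (n - 1)) = n * (r * (1 + (N : ℝ) * ((n - 1) / n))) := by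
        field_simp
      rw [h7]
      nlinarith
    constructor
    · rw [div_le_iff₀ (by positivity)]
      have h7 : 2 * (n + N * (n - 1)) ≤ (n : ℝ) ^ 2 + 1 := by nlinarith
      nlinarith
    · rintro ⟨p, hp⟩
      rw [div_le_iff₀ hn0]
      have hNp : N + 1 = p := by omega
      have hNp' : (N : ℝ) = p - 1 := by
        rw [← hNp]
        push_cast
        ring
      have hnp : (n : ℝ) = 2 * p := by
        rw [hp]
        push_cast
        ring
      have hp1 : (1 : ℝ) ≤ p := by
        have : 1 ≤ p := by omega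
        exact_mod_cast this
      rw [hNp', hnp] at h6
      rw [hnp]
      -- `2 p ≤ r (2 p + (p - 1) (2 p - 1))`
      have h8 : r * (2 * p + (p - 1) * (2 * p - 1)) ≤ r * (2 * (p : ℝ) ^ 2) := by
        apply mul_le_mul_of_nonneg_left _ hr0
        nlinarith
      have h9 : 2 * (p : ℝ) ≤ r * (2 * (p : ℝ) ^ 2) := h6.trans h8
      have h10 : 2 * (p : ℝ) * 1 ≤ 2 * p * (r * p) := by nlinarith
      have h11 := le_of_mul_le_mul_left h10 (by positivity)
      linarith
  · -- the cosets of `⟨t⟩`
    push Not at hall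
    obtain ⟨t, ht1, ht⟩ := hall
    have htfin : ¬ IsOfFinOrder t := fun h => ht1 (htf t h)
    set H := Subgroup.zpowers t with hH
    set k := n - H61R3AT.cnt S t with hk
    set Q : Fin m → Finset (G ⧸ H) := fun i =>
      (A i j).support.image (fun g : G => (QuotientGroup.mk g : G ⧸ H)) with hQ
    have hkQ : ∀ i, (Q i).card ≤ k := by
      intro i
      refine (cosets_card t htfin (A i j).support).trans ?_
      have h1 : (S.filter fun p => ¬ (p.1, p.2 * t) ∈ S).card = k := by
        have h2 := Finset.card_filter_add_card_filter_not (s := S) (fun p => (p.1, p.2 * t) ∈ S)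
        have h3 : (S.filter fun p => (p.1, p.2 * t) ∈ S).card = H61R3AT.cnt S t := by
          unfold H61R3AT.cnt
          congr
        rw [h3, hcard] at h2
        omega
      rw [← h1]
      refine Finset.card_le_card_of_injOn (fun g => (i, g)) ?_ ?_
      · intro g hg
        have hg' := Finset.mem_filter.1 (Finset.mem_coe.1 hg)
        refine Finset.mem_coe.2 (Finset.mem_filter.2 ⟨?_, ?_⟩)
        · rw [hmem]
          exact Finsupp.mem_support_iff.1 hg'.1
        · rw [hmem]
          intro h2
          exact hg'.2 (Finsupp.mem_support_iff.2 h2)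
      · intro a _ b _ hab
        exact congrArg Prod.snd hab
    set x : (i : Fin m) → Fin (Q i).card → G := fun i s =>
      Quotient.out (((Q i).equivFin.symm s : Q i) : G ⧸ H) with hx
    have hxmk : ∀ i s, (QuotientGroup.mk (x i s) : G ⧸ H) = ((Q i).equivFin.symm s : Q i) := by
      intro i s
      exact QuotientGroup.out_eq' _
    have hx1 : ∀ i s s', (x i s)⁻¹ * x i s' ∈ H → s = s' := by
      intro i s s' h
      have h1 := QuotientGroup.eq.2 h
      rw [hxmk, hxmk] at h1
      exact (Q i).equivFin.symm.injective (Subtype.ext h1)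
    have hA1 : ∀ i g, A i j g ≠ 0 → ∃ s, (x i s)⁻¹ * g ∈ H := by
      intro i g hg
      have h1 : (QuotientGroup.mk g : G ⧸ H) ∈ Q i :=
        Finset.mem_image.2 ⟨g, Finsupp.mem_support_iff.2 hg, rfl⟩
      refine ⟨(Q i).equivFin ⟨_, h1⟩, ?_⟩
      rw [← QuotientGroup.eq, hxmk, Equiv.symm_apply_apply]
    have hreg : Reg H := by
      refine reg_cyclic (⟨t, Subgroup.mem_zpowers t⟩ : H) ?_ ?_
      · intro h
        apply htfin
        have := (Subgroup.subtype H).isOfFinOrder h
        exact this
      · rintro ⟨y, ⟨z, rfl⟩⟩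
        exact ⟨z, Subtype.ext (by simp)⟩
    obtain ⟨i0, hi0⟩ := hj
    have h1 := col_bound H hreg A j i0 hi0 x hx1 hA1 k k
      (fun i => by rw [Fintype.card_fin]; exact hkQ i) le_rfl
      (fun i i' g _ => (ncard_le H x hx1 i i' g).trans (by rw [Fintype.card_fin]; exact hkQ i))
    have hk0 : 0 < k := by
      obtain ⟨g0, hg0⟩ := Finsupp.ne_iff.1 hi0
      have h2 : (QuotientGroup.mk g0 : G ⧸ H) ∈ Q i0 :=
        Finset.mem_image.2 ⟨g0, Finsupp.mem_support_iff.2 hg0, rfl⟩
      exact (Finset.card_pos.2 ⟨_, h2⟩).trans_le (hkQ i0)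
    have hk0' : (0 : ℝ) < k := by exact_mod_cast hk0
    have h2 : 1 + (k : ℝ) * (1 - 1 / k) = k := by
      field_simp
      ring
    rw [h2, ← hr] at h1
    have h3 : 2 * k ≤ n := by omega
    have h3' : 2 * (k : ℝ) ≤ n := by exact_mod_cast h3
    have hn0 : (0 : ℝ) < n := by linarith
    have h4 : 2 ≤ r * n := by nlinarith
    have h5 : 2 / (n : ℝ) ≤ r := by
      rw [div_le_iff₀ hn0]
      exact h4
    refine ⟨?_, fun _ => h5⟩
    refine le_trans ?_ h5
    rw [div_le_div_iff₀ (by positivity) hn0]
    nlinarith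

end

end Pool.Agent.W5h92.CR
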